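import Pool.Agent.Lib.MP_09c31c_an.Limit

/-! Sharp form of the one step approximation. -/

set_option autoImplicit false

namespace Pool.Agent.Lib.MP_09c31c_an.TH

open Finset

/-- the profile of the perturbation: the primitive of `((1+ω)^p - 1) / ω` -/
noncomputable def GG (p : ℕ) (ω : ℂ) : ℂ :=
  ∑ j ∈ range p, (p.choose (j + 1) : ℂ) / ((j : ℂ) + 1) * ω ^ (j + 1)

lemma norm_cast_succ (j : ℕ) : ‖(j : ℂ) + 1‖ = (j : ℝ) + 1 := by
  have : (j : ℂ) + 1 = ((j + 1 : ℕ) : ℂ) := by push_cast; ring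
  rw [this, Complex.norm_natCast]; push_cast; ring

lemma sum_choose_inv (p : ℕ) :
    ∑ j ∈ range p, (p.choose (j + 1) : ℝ) / ((j : ℝ) + 1) ≤ 2 * (2 ^ (p + 1) / ((p : ℝ) + 1)) := by
  refine le_trans ?_ (mul_le_mul_of_nonneg_left (sum_choose_one p) (by norm_num))
  rw [Finset.mul_sum]
  refine Finset.sum_le_sum fun j _ => ?_
  rw [← mul_div_assoc, div_le_div_iff₀ (by positivity) (by positivity)]
  have h1 : (0 : ℝ) ≤ (p.choose (j + 1) : ℝ) * j := by positivity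
  nlinarith

lemma norm_GG_le (p : ℕ) (ω : ℂ) (hω : ‖ω‖ = 1) :
    ‖GG p ω‖ ≤ 2 * (2 ^ (p + 1) / ((p : ℝ) + 1)) := by
  refine le_trans ((norm_sum_le _ _).trans (le_of_eq ?_)) (sum_choose_inv p)
  refine Finset.sum_congr rfl fun j _ => ?_
  rw [norm_mul, norm_pow, hω, one_pow, mul_one, norm_div, Complex.norm_natCast, norm_cast_succ]

lemma GG_approx (p : ℕ) (ω : ℂ) (hω : ‖ω‖ = 1) :
    ‖GG p ω - (1 + ω) ^ (p + 1) / (ω * ((p : ℂ) + 1))‖
      ≤ 6 * (2 ^ (p + 1) / ((p : ℝ) + 1)) / ((p : ℝ) + 2) + 2 := by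
  have hp : ((p : ℂ) + 1) ≠ 0 := by exact_mod_cast Nat.succ_ne_zero p
  have h0 : ω ≠ 0 := by
    intro h; rw [h] at hω; simp at hω
  have e1 : (1 + ω) ^ (p + 1) / (ω * ((p : ℂ) + 1))
      = (1 / (((p : ℂ) + 1) * ω) + 1) + ∑ j ∈ range p,
        (p.choose (j + 1) : ℂ) / ((j : ℂ) + 2) * ω ^ (j + 1) := by
    have h := approx_identity p ω
    have : (1 + ω) ^ (p + 1) / (ω * ((p : ℂ) + 1)) = ((1 + ω) ^ (p + 1) / ((p : ℂ) + 1)) / ω := by
      field_simp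
    rw [this, h]
    field_simp
  have e2 : GG p ω - ∑ j ∈ range p, (p.choose (j + 1) : ℂ) / ((j : ℂ) + 2) * ω ^ (j + 1)
      = ∑ j ∈ range p, (((p.choose (j + 1) : ℝ) / (((j : ℝ) + 1) * ((j : ℝ) + 2)) : ℝ) : ℂ)
        * ω ^ (j + 1) := by
    unfold GG
    rw [← Finset.sum_sub_distrib]
    refine Finset.sum_congr rfl fun j _ => ?_
    have hj : ((j : ℂ) + 2) ≠ 0 := by exact_mod_cast (show (j + 2 : ℕ) ≠ 0 by omega)
    have hj1 : ((j : ℂ) + 1) ≠ 0 := by exact_mod_cast Nat.succ_ne_zero j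
    push_cast
    field_simp
    ring
  have b2 : ‖∑ j ∈ range p, (((p.choose (j + 1) : ℝ) / (((j : ℝ) + 1) * ((j : ℝ) + 2)) : ℝ) : ℂ)
        * ω ^ (j + 1)‖ ≤ 6 * (2 ^ (p + 1) / ((p : ℝ) + 1)) / ((p : ℝ) + 2) := by
    have h1 : ∀ j ∈ range p,
        ‖(((p.choose (j + 1) : ℝ) / (((j : ℝ) + 1) * ((j : ℝ) + 2)) : ℝ) : ℂ) * ω ^ (j + 1)‖
          ≤ 3 * ((p.choose (j + 1) : ℝ) / (((j : ℝ) + 2) * ((j : ℝ) + 3))) := by
      intro j _
      rw [norm_mul, norm_pow, hω, one_pow, mul_one, Complex.norm_real,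
        Real.norm_of_nonneg (by positivity), ← mul_div_assoc,
        div_le_div_iff₀ (by positivity) (by positivity)]
      have h1 : (0 : ℝ) ≤ (p.choose (j + 1) : ℝ) * (((j : ℝ) + 2) * j) := by positivity
      nlinarith
    refine (norm_sum_le _ _).trans ((Finset.sum_le_sum h1).trans ?_)
    rw [← Finset.mul_sum]
    have h2 := sum_choose_two p
    calc 3 * ∑ j ∈ range p, (p.choose (j + 1) : ℝ) / (((j : ℝ) + 2) * ((j : ℝ) + 3))
        ≤ 3 * (2 ^ (p + 2) / (((p : ℝ) + 1) * ((p : ℝ) + 2))) := by gcongr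
      _ = _ := by field_simp; ring
  have b1 : ‖1 / (((p : ℂ) + 1) * ω) + 1‖ ≤ 2 := by
    refine (norm_add_le _ _).trans ?_
    rw [norm_div, norm_mul, hω, mul_one, norm_one, norm_cast_succ]
    have : 1 / ((p : ℝ) + 1) ≤ 1 := by
      rw [div_le_one (by positivity)]
      have : (0 : ℝ) ≤ p := by positivity
      linarith
    linarith
  rw [e1, ← sub_sub, sub_right_comm, e2]
  exact (norm_sub_le _ _).trans (add_le_add b2 b1)

lemma hh_GG (p m D : ℕ) (hm : 0 < m) (b : ℕ → ℕ) (hb : ∀ n, D ≤ n → b n = 0) (z : ℂ)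
    (hz : ‖z‖ = 1) :
    ‖hh p m b z - z * FF m b z * (GG p (z ^ m) / m)‖
      ≤ BB m b * D / m * (2 * (2 ^ (p + 1) / ((p : ℝ) + 1)) / m) := by
  have hm' : (0 : ℝ) < m := by exact_mod_cast hm
  have hmc : (m : ℂ) ≠ 0 := by exact_mod_cast hm.ne'
  have hB := BB_nonneg m b
  have e2 : hh p m b z - z * FF m b z * (GG p (z ^ m) / m)
      = ∑ j ∈ range p, ∑ i ∈ range m, (p.choose (j + 1) : ℂ) * (b i : ℂ) *
          (((1 / ((m : ℝ) * ((j : ℝ) + 1) + (i : ℝ) + 1) - 1 / ((m : ℝ) * ((j : ℝ) + 1)) : ℝ)) : ℂ)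
          * z ^ (m * (j + 1) + i + 1) := by
    unfold hh FF GG
    rw [Finset.sum_div, Finset.mul_sum, ← Finset.sum_sub_distrib]
    apply Finset.sum_congr rfl
    intro j _
    rw [Finset.mul_sum, Finset.sum_mul, ← Finset.sum_sub_distrib]
    apply Finset.sum_congr rfl
    intro i _
    have hj : ((j : ℂ) + 1) ≠ 0 := by exact_mod_cast Nat.succ_ne_zero j
    push_cast
    rw [← pow_mul]
    field_simp
    ring
  have h1 : ∀ j ∈ range p, ‖∑ i ∈ range m, (p.choose (j + 1) : ℂ) * (b i : ℂ) *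
        (((1 / ((m : ℝ) * ((j : ℝ) + 1) + (i : ℝ) + 1) - 1 / ((m : ℝ) * ((j : ℝ) + 1)) : ℝ)) : ℂ)
        * z ^ (m * (j + 1) + i + 1)‖
      ≤ (BB m b * D / m / m) * ((p.choose (j + 1) : ℝ) / ((j : ℝ) + 1)) := by
    intro j _
    unfold BB
    rw [Finset.sum_mul, Finset.sum_div, Finset.sum_div, Finset.sum_mul]
    refine (norm_sum_le _ _).trans (Finset.sum_le_sum fun i _ => ?_)
    rcases le_or_gt D i with hi | hi
    · simp [hb i hi]
    have hi1 : (i : ℝ) + 1 ≤ D := by exact_mod_cast hi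
    rw [norm_mul, norm_mul, norm_mul, norm_pow, hz, one_pow, mul_one, Complex.norm_natCast,
      Complex.norm_natCast, Complex.norm_real, Real.norm_eq_abs]
    have hj : (0 : ℝ) ≤ j := by positivity
    have hi' : (0 : ℝ) ≤ i := by positivity
    have hd1 : (0 : ℝ) < (m : ℝ) * ((j : ℝ) + 1) := by positivity
    have a2 : 1 / ((m : ℝ) * ((j : ℝ) + 1) + (i : ℝ) + 1) ≤ 1 / ((m : ℝ) * ((j : ℝ) + 1)) := by
      apply one_div_le_one_div_of_le hd1; linarith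
    have a3 : 1 / ((m : ℝ) * ((j : ℝ) + 1)) - 1 / ((m : ℝ) * ((j : ℝ) + 1) + (i : ℝ) + 1)
        ≤ D / (((m : ℝ) * ((j : ℝ) + 1)) * m) := by
      rw [div_sub_div _ _ (by positivity) (by positivity)]
      refine div_le_div₀ (by positivity) (by linarith) (by positivity) ?_
      refine mul_le_mul_of_nonneg_left ?_ hd1.le
      nlinarith
    rw [abs_of_nonpos (by linarith)]
    have hc : (0 : ℝ) ≤ (p.choose (j + 1) : ℝ) * (b i : ℝ) := by positivity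
    calc (p.choose (j + 1) : ℝ) * (b i : ℝ) *
          -(1 / ((m : ℝ) * ((j : ℝ) + 1) + (i : ℝ) + 1) - 1 / ((m : ℝ) * ((j : ℝ) + 1)))
        ≤ (p.choose (j + 1) : ℝ) * (b i : ℝ) * (D / (((m : ℝ) * ((j : ℝ) + 1)) * m)) := by
          apply mul_le_mul_of_nonneg_left _ hc; linarith
      _ = _ := by field_simp
  rw [e2]
  refine (norm_sum_le _ _).trans ((Finset.sum_le_sum h1).trans ?_)
  rw [← Finset.mul_sum]
  have h2 := sum_choose_inv p
  calc BB m b * D / m / m * ∑ j ∈ range p, (p.choose (j + 1) : ℝ) / ((j : ℝ) + 1)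
      ≤ BB m b * D / m / m * (2 * (2 ^ (p + 1) / ((p : ℝ) + 1))) := by gcongr
    _ = _ := by field_simp

lemma ff_taylor (D : ℕ) (b : ℕ → ℕ) (z : ℂ) (hz : ‖z‖ = 1) (x : ℝ) (hx : D * |x| ≤ 1) :
    ‖ff D b (z * Complex.exp ((x : ℂ) * Complex.I)) - ff D b z
        - (x : ℂ) * Complex.I * (z * FF D b z)‖ ≤ D * BB D b * x ^ 2 := by
  unfold ff FF BB
  rw [Finset.mul_sum, Finset.mul_sum, ← Finset.sum_sub_distrib, ← Finset.sum_sub_distrib,
    Finset.mul_sum, Finset.sum_mul]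
  refine (norm_sum_le _ _).trans (Finset.sum_le_sum fun n hn => ?_)
  have hn1 : (n : ℝ) + 1 ≤ D := by exact_mod_cast Finset.mem_range.1 hn
  have hj : ((n : ℂ) + 1) ≠ 0 := by exact_mod_cast Nat.succ_ne_zero n
  set y : ℂ := ((n : ℂ) + 1) * ((x : ℂ) * Complex.I) with hy
  have hny : ‖y‖ = ((n : ℝ) + 1) * |x| := by
    rw [hy, norm_mul, norm_cast_succ, norm_mul, Complex.norm_I, mul_one, Complex.norm_real,
      Real.norm_eq_abs]
  have e : (b n : ℂ) / ((n : ℂ) + 1) * (z * Complex.exp ((x : ℂ) * Complex.I)) ^ (n + 1)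
      - (b n : ℂ) / ((n : ℂ) + 1) * z ^ (n + 1) - (x : ℂ) * Complex.I * (z * ((b n : ℂ) * z ^ n))
      = (b n : ℂ) / ((n : ℂ) + 1) * z ^ (n + 1) * (Complex.exp y - 1 - y) := by
    have : Complex.exp ((x : ℂ) * Complex.I) ^ (n + 1) = Complex.exp y := by
      rw [← Complex.exp_nat_mul, hy]; push_cast; ring_nf
    rw [mul_pow, this, hy]
    field_simp
    ring
  have hx0 := abs_nonneg x
  have h1 : ‖Complex.exp y - 1 - y‖ ≤ ‖y‖ ^ 2 :=
    Complex.norm_exp_sub_one_sub_id_le (by rw [hny]; nlinarith)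
  rw [e, norm_mul, norm_mul, norm_pow, hz, one_pow, mul_one, norm_div, Complex.norm_natCast,
    norm_cast_succ]
  rw [hny, mul_pow, sq_abs] at h1
  calc (b n : ℝ) / ((n : ℝ) + 1) * ‖Complex.exp y - 1 - y‖
      ≤ (b n : ℝ) / ((n : ℝ) + 1) * (((n : ℝ) + 1) ^ 2 * x ^ 2) := by gcongr
    _ = ((n : ℝ) + 1) * (b n : ℝ) * x ^ 2 := by field_simp
    _ ≤ D * (b n : ℝ) * x ^ 2 := by gcongr

lemma profile (q : ℕ) (t : ℝ) :
    (1 + Complex.exp (((2 * t : ℝ) : ℂ) * Complex.I)) ^ (q + 1 + 1)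
        / (Complex.exp (((2 * t : ℝ) : ℂ) * Complex.I) * ((((q + 1 : ℕ) : ℂ)) + 1))
      = ((2 ^ (q + 2) / ((q : ℝ) + 2) * Real.cos t ^ (q + 2) : ℝ) : ℂ)
        * Complex.exp (((q * t : ℝ) : ℂ) * Complex.I) := by
  have hq : ((q : ℂ) + 2) ≠ 0 := by exact_mod_cast (show (q + 2 : ℕ) ≠ 0 by omega)
  have e1 : Complex.exp (((2 * t : ℝ) : ℂ) * Complex.I) = Complex.exp ((t : ℂ) * Complex.I) ^ 2 := by
    rw [← Complex.exp_nat_mul]; push_cast; ring_nf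
  have e2 : Complex.exp (((q * t : ℝ) : ℂ) * Complex.I) = Complex.exp ((t : ℂ) * Complex.I) ^ q := by
    rw [← Complex.exp_nat_mul]; push_cast; ring_nf
  have h0 := Complex.exp_ne_zero ((t : ℂ) * Complex.I)
  rw [one_add_exp, e1, e2]
  have e3 : (((q + 1 : ℕ) : ℂ)) + 1 = (q : ℂ) + 2 := by push_cast; ring
  rw [e3, Complex.ofReal_mul, Complex.ofReal_div, Complex.ofReal_pow, Complex.ofReal_pow,
    Complex.ofReal_add, Complex.ofReal_natCast, Complex.ofReal_ofNat]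
  field_simp
  ring

lemma cos_pow_ge (q : ℕ) (hq : 200 ≤ q) (u : ℝ) (h0 : 0 ≤ u) (h1 : u ≤ Real.pi) :
    0 ≤ Real.cos (u / q) ∧ 19 / 20 ≤ Real.cos (u / q) ^ (q + 2) := by
  have hq' : (200 : ℝ) ≤ q := by exact_mod_cast hq
  have hpi : Real.pi ≤ 3.2 := by have := Real.pi_lt_d2; linarith
  have h2 := Real.one_sub_sq_div_two_le_cos (x := u / q)
  have h3 : (u / q) ^ 2 ≤ 11 / (q : ℝ) ^ 2 := by
    rw [div_pow]
    gcongr
    nlinarith
  have h4 : ((q : ℝ) + 2) * (11 / (q : ℝ) ^ 2) ≤ 1 / 10 := by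
    rw [← mul_div_assoc, div_le_div_iff₀ (by positivity) (by norm_num)]
    nlinarith
  have h5 : (0 : ℝ) ≤ 11 / (q : ℝ) ^ 2 := by positivity
  have h6 : 11 / (q : ℝ) ^ 2 ≤ 1 := by nlinarith
  have h7 : 1 + -(11 / (q : ℝ) ^ 2 / 2) ≤ Real.cos (u / q) := by linarith
  refine ⟨by linarith, ?_⟩
  have h8 := one_add_mul_le_pow (a := -(11 / (q : ℝ) ^ 2 / 2)) (by linarith) (q + 2)
  have h9 := pow_le_pow_left₀ (by linarith) h7 (q + 2)
  push_cast at h8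
  linarith

end Pool.Agent.Lib.MP_09c31c_an.TH
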