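import Mathlib
import Pool.Agent.Shared.Brouwer.Basic

/-! A vertical segment and a half circle, both perturbed, still meet. -/

set_option autoImplicit false

namespace Pool.Agent.Lib.MP_09c31c_an.TH

open Complex Set

lemma clamp_fix {T t f : ℝ} (h : max (-T) (min T (t - f)) = t) (h1 : t = T → 0 < f)
    (h2 : t = -T → f < 0) (hT : 0 ≤ T) : f = 0 := by
  rcases le_total T (t - f) with a | a
  · rw [min_eq_left a, max_eq_right (by linarith)] at h
    have := h1 h.symm; linarith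
  · rw [min_eq_right a] at h
    rcases le_total (-T) (t - f) with b | b
    · rw [max_eq_right b] at h; linarith
    · rw [max_eq_left b] at h
      have := h2 h.symm; linarith

/-- Poincare-Miranda theorem in the plane. -/
lemma miranda (f g : ℝ × ℝ → ℝ) (hf : Continuous f) (hg : Continuous g) {T S : ℝ}
    (hT : 0 < T) (hS : 0 < S) (f1 : ∀ s ∈ Icc (-S) S, 0 < f (T, s))
    (f2 : ∀ s ∈ Icc (-S) S, f (-T, s) < 0)
    (g1 : ∀ t ∈ Icc (-T) T, 0 < g (t, S)) (g2 : ∀ t ∈ Icc (-T) T, g (t, -S) < 0) :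
    ∃ t ∈ Icc (-T) T, ∃ s ∈ Icc (-S) S, f (t, s) = 0 ∧ g (t, s) = 0 := by
  let Φ : ℂ → ℂ := fun z => (max (-T) (min T (z.re - f (z.re, z.im))) : ℝ) +
    (max (-S) (min S (z.im - g (z.re, z.im))) : ℝ) * I
  have hre : ∀ z, (Φ z).re = max (-T) (min T (z.re - f (z.re, z.im))) := fun z => by simp [Φ]
  have him : ∀ z, (Φ z).im = max (-S) (min S (z.im - g (z.re, z.im))) := fun z => by simp [Φ]
  have hcl : ∀ {T : ℝ}, 0 < T → ∀ x, |max (-T) (min T x)| ≤ T := fun hT x =>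
    abs_le.2 ⟨le_max_left _ _, max_le (by linarith) (min_le_left _ _)⟩
  obtain ⟨z, -, hz⟩ := Pool.Agent.Shared.Brouwer.brouwer (F := ℂ) (R := T + S) (by positivity) Φ
    (Continuous.continuousOn (by fun_prop)) (fun z _ => by
      simp only [Metric.mem_closedBall, dist_zero_right]
      refine (Complex.norm_le_abs_re_add_abs_im _).trans ?_
      rw [hre, him]
      exact add_le_add (hcl hT _) (hcl hS _))
  have h1 := hre z
  have h2 := him z
  rw [hz] at h1 h2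
  have h3 : z.re ∈ Icc (-T) T := by rw [h1]; exact abs_le.1 (hcl hT _)
  have h4 : z.im ∈ Icc (-S) S := by rw [h2]; exact abs_le.1 (hcl hS _)
  refine ⟨z.re, h3, z.im, h4, clamp_fix h1.symm (fun h => ?_) (fun h => ?_) hT.le,
    clamp_fix h2.symm (fun h => ?_) (fun h => ?_) hS.le⟩
  · rw [h]; exact f1 _ h4
  · rw [h]; exact f2 _ h4
  · rw [h]; exact g1 _ h3
  · rw [h]; exact g2 _ h3

lemma hit (Ψ : ℝ × ℝ → ℂ) (hc : Continuous Ψ)
    (h : ∀ y ∈ Icc (-2 : ℝ) 2, ∀ u ∈ Icc (0 : ℝ) Real.pi,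
      ‖Ψ (y, u) - ((y : ℂ) * I + exp ((u : ℂ) * I))‖ ≤ 1 / 2) :
    ∃ y ∈ Icc (-2 : ℝ) 2, ∃ u ∈ Icc (0 : ℝ) Real.pi, Ψ (y, u) = 0 := by
  have hp := Real.pi_pos
  have hm : ∀ s ∈ Icc (-(Real.pi / 2)) (Real.pi / 2), s + Real.pi / 2 ∈ Icc (0 : ℝ) Real.pi :=
    fun s hs => ⟨by linarith [hs.1], by linarith [hs.2]⟩
  have him : ∀ y ∈ Icc (-2 : ℝ) 2, ∀ u ∈ Icc (0 : ℝ) Real.pi,
      |(Ψ (y, u)).im - (y + Real.sin u)| ≤ 1 / 2 := by
    intro y hy u hu
    refine le_trans (le_of_eq ?_) ((abs_im_le_norm _).trans (h y hy u hu))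
    simp [exp_ofReal_mul_I_im]
  have hre : ∀ y ∈ Icc (-2 : ℝ) 2, ∀ u ∈ Icc (0 : ℝ) Real.pi,
      |(Ψ (y, u)).re - Real.cos u| ≤ 1 / 2 := by
    intro y hy u hu
    refine le_trans (le_of_eq ?_) ((abs_re_le_norm _).trans (h y hy u hu))
    simp [exp_ofReal_mul_I_re]
  obtain ⟨y, hy, s, hs, h1, h2⟩ := miranda (fun x => (Ψ (x.1, x.2 + Real.pi / 2)).im)
    (fun x => -(Ψ (x.1, x.2 + Real.pi / 2)).re) (by fun_prop) (by fun_prop)
    (T := 2) (S := Real.pi / 2) (by norm_num) (by positivity)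
    (fun s hs => by
      have := abs_le.1 (him 2 ⟨by norm_num, le_rfl⟩ _ (hm s hs))
      have h3 := Real.neg_one_le_sin (s + Real.pi / 2)
      linarith [this.1])
    (fun s hs => by
      have := abs_le.1 (him (-2) ⟨le_rfl, by norm_num⟩ _ (hm s hs))
      have h3 := Real.sin_le_one (s + Real.pi / 2)
      linarith [this.2])
    (fun t ht => by
      have := abs_le.1 (hre t ht Real.pi ⟨hp.le, le_rfl⟩)
      rw [Real.cos_pi] at this
      simp only [add_halves]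
      linarith [this.2])
    (fun t ht => by
      have := abs_le.1 (hre t ht 0 ⟨le_rfl, hp.le⟩)
      rw [Real.cos_zero] at this
      simp only [neg_add_cancel]
      linarith [this.1])
  exact ⟨y, hy, _, hm s hs, Complex.ext (by simpa using h2) (by simpa using h1)⟩

end Pool.Agent.Lib.MP_09c31c_an.TH
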