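import Pool.Agent.Results.MP_09c31c_an.DecayThreshold

/-! The statement of the retired hand-in CoversDisc follows from DecayThreshold. -/

set_option autoImplicit false

namespace Pool.Agent.Lib.MP_09c31c_an.TH

open Metric MeasureTheory

theorem coversDisc : ∃ (a : ℕ → ℂ) (f : ℂ → ℂ), a 0 = 0 ∧ Summable (fun n => ‖a n‖) ∧
    (∀ z : ℂ, ‖z‖ ≤ 1 → HasSum (fun n => a n * z ^ n) (f z)) ∧
    AnalyticOnNhd ℂ f (ball 0 1) ∧ (∀ z : ℂ, ‖z‖ < 1 → deriv f z ≠ 0) ∧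
    (∃ (c : ℂ) (r : ℝ), 0 < r ∧ ball c r ⊆ f '' sphere 0 1) ∧ 0 < volume (f '' sphere 0 1) := by
  obtain ⟨a, f, h0, h1, -, h3, h4, h5, c, r, hr, h6⟩ :=
    ((Pool.Agent.Results.MP_09c31c_an.DecayThreshold.result ∅).out 0 2).1 (by simp)
  exact ⟨a, f, h0, h1, h3, h4, h5, ⟨c, r, hr, h6⟩,
    (measure_ball_pos volume c hr).trans_le (measure_mono h6)⟩

end Pool.Agent.Lib.MP_09c31c_an.TH
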