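import Pool.Agent.Lib.MP_09c31c_an.TH.Seq

/-! Passing to the limit, with the weighted coefficient sums. -/

set_option autoImplicit false

namespace Pool.Agent.Lib.MP_09c31c_an.TH

open Finset Filter Topology

/-- bound for the weighted mass added at stage `N` -/
noncomputable def mass (s : ℝ) (N : ℕ) : ℝ :=
  ((2 : ℝ) ^ (PP N + (N + 15) ^ 2 + ee N)) ^ s * (10 * ((1 / 2) ^ ee N * 4 ^ N))

lemma mass_pos (s : ℝ) (N : ℕ) : 0 < mass s N := by unfold mass; positivity

lemma mass_eq (s : ℝ) (N : ℕ) : mass s N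
    = 10 * (2 : ℝ) ^ (((PP N : ℝ) + ((N : ℝ) + 15) ^ 2 + ee N) * s - ee N + 2 * N) := by
  unfold mass
  have e1 : (4 : ℝ) ^ N = (2 : ℝ) ^ (2 * (N : ℝ)) := by
    rw [Real.rpow_mul (by norm_num), Real.rpow_natCast]; norm_num
  have e2 : (1 / 2 : ℝ) ^ ee N = 1 / (2 : ℝ) ^ (ee N : ℝ) := by
    rw [Real.rpow_natCast, one_div_pow]
  rw [← Real.rpow_natCast (2 : ℝ), ← Real.rpow_mul (by norm_num), e1, e2,
    Real.rpow_add (by norm_num), Real.rpow_sub (by norm_num)]
  push_cast
  ring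

lemma summable_mass (s : ℝ) (h0 : 0 ≤ s) (hs : s < 1 / 2) : Summable (mass s) := by
  refine summable_of_ratio_norm_eventually_le (r := 1 / 2) (by norm_num) ?_
  have hδ : 0 < 1 - 2 * s := by linarith
  filter_upwards [tendsto_natCast_atTop_atTop.eventually_ge_atTop (7 / (1 - 2 * s))] with N hN
  rw [Real.norm_of_nonneg (mass_pos _ _).le, Real.norm_of_nonneg (mass_pos _ _).le, mass_eq,
    mass_eq]
  have e : (1 / 2 : ℝ) = 2 ^ (-1 : ℝ) := by rw [Real.rpow_neg_one]; norm_num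
  rw [e, mul_left_comm, ← Real.rpow_add (by norm_num)]
  refine mul_le_mul_of_nonneg_left (Real.rpow_le_rpow_of_exponent_le (by norm_num) ?_)
    (by norm_num)
  rw [PP, ee]
  push_cast
  rw [div_le_iff₀ hδ] at hN
  have hN0 : (0 : ℝ) ≤ N := by positivity
  obtain ⟨n, hn⟩ : ∃ n : ℝ, n = N + 15 := ⟨_, rfl⟩
  have hNn : (N : ℝ) = n - 15 := by linarith
  rw [hNn] at hN hN0 ⊢
  have h1 : 7 ≤ n * (1 - 2 * s) := by nlinarith
  have h2 : 7 * n ≤ n * (n * (1 - 2 * s)) := by nlinarith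
  have h3 : 0 ≤ s * (n - 1) := mul_nonneg h0 (by linarith)
  nlinarith

lemma exists_limit : ∃ (D : ℕ → ℕ) (β : ℕ → ℕ), StrictMono D ∧
    (∀ s : ℝ, 0 ≤ s → s < 1 / 2 →
      Summable fun n : ℕ => ((n : ℝ) + 1) ^ s * ((β n : ℝ) / ((n : ℝ) + 1))) ∧
    (∀ N (z : ℂ), ‖z‖ < 1 → Real.exp (-(1 / (1 - ‖z‖) ^ 3)) ≤ ‖FF (D N) β z‖) ∧
    (∀ N (w : ℂ), ‖w - 1‖ ≤ (1 / 2) ^ 10 →
      ∃ z : ℂ, ‖z‖ = 1 ∧ ‖ff (D N) β z - w‖ ≤ (1 / 2) ^ N) := by
  obtain ⟨D, b, hI, hD, hb, hT, hU⟩ := exists_seq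
  have hmono : StrictMono D := strictMono_nat_of_lt_succ hD
  have hstab : ∀ N k n, n < D N → b (N + k) n = b N n := by
    intro N k n hn
    induction k with
    | zero => rfl
    | succ k ih =>
      rw [← add_assoc, hb (N + k) n (lt_of_lt_of_le hn (hmono.monotone (by omega))), ih]
  have hβ : ∀ N n, n < D N → b (n + 1) n = b N n := by
    intro N n hn
    have h1 : n < D (n + 1) := lt_of_lt_of_le (Nat.lt_succ_self n) (hmono.id_le (n + 1))
    have h2 := hstab N (n + 1) n hn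
    have h3 := hstab (n + 1) N n h1
    rw [add_comm] at h2
    rw [← h3, h2]
  have hFF : ∀ N z, FF (D N) (fun n => b (n + 1) n) z = FF (D N) (b N) z := by
    intro N z
    exact Finset.sum_congr rfl fun n hn => by simp only [hβ N n (Finset.mem_range.1 hn)]
  have hff : ∀ N z, ff (D N) (fun n => b (n + 1) n) z = ff (D N) (b N) z := by
    intro N z
    exact Finset.sum_congr rfl fun n hn => by simp only [hβ N n (Finset.mem_range.1 hn)]
  have hTT : ∀ N, TT (D N) (fun n => b (n + 1) n) = TT (D N) (b N) := by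
    intro N
    exact Finset.sum_congr rfl fun n hn => by simp only [hβ N n (Finset.mem_range.1 hn)]
  refine ⟨D, fun n => b (n + 1) n, hmono, ?_, ?_, ?_⟩
  · intro s h0 hs
    set g : ℕ → ℝ := fun n => ((n : ℝ) + 1) ^ s * ((b (n + 1) n : ℝ) / ((n : ℝ) + 1)) with hg
    have hg0 : ∀ n, 0 ≤ g n := fun n => by positivity
    have hstep : ∀ N, ∑ n ∈ range (D (N + 1)), g n ≤ ∑ n ∈ range (D N), g n + mass s N := by
      intro N
      have h1 := hT N
      rw [← hTT, ← hTT] at h1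
      unfold TT at h1
      rw [← Finset.sum_range_add_sum_Ico _ (hD N).le] at h1 ⊢
      have h2 : ∑ n ∈ Ico (D N) (D (N + 1)), g n
          ≤ ((2 : ℝ) ^ (PP N + (N + 15) ^ 2 + ee N)) ^ s
            * ∑ n ∈ Ico (D N) (D (N + 1)), (b (n + 1) n : ℝ) / ((n : ℝ) + 1) := by
        rw [Finset.mul_sum]
        refine Finset.sum_le_sum fun n hn => ?_
        have h3 : (n : ℝ) + 1 ≤ D (N + 1) := by exact_mod_cast (Finset.mem_Ico.1 hn).2
        exact mul_le_mul_of_nonneg_right
          (Real.rpow_le_rpow (by positivity) (h3.trans (hU N)) h0) (by positivity)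
      refine add_le_add le_rfl (h2.trans ?_)
      unfold mass
      exact mul_le_mul_of_nonneg_left (by linarith) (by positivity)
    have hall : ∀ N, ∑ n ∈ range (D N), g n
        ≤ ∑ n ∈ range (D 0), g n + ∑ k ∈ range N, mass s k := by
      intro N
      induction N with
      | zero => simp
      | succ N ih => rw [Finset.sum_range_succ]; linarith [hstep N]
    refine summable_of_sum_range_le (c := ∑ n ∈ range (D 0), g n + ∑' k, mass s k) hg0 fun n => ?_
    have h4 : ∑ i ∈ range n, g i ≤ ∑ i ∈ range (D n), g i :=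
      Finset.sum_le_sum_of_subset_of_nonneg (Finset.range_mono (hmono.id_le n))
        fun i _ _ => hg0 i
    have h5 := (summable_mass s h0 hs).sum_le_tsum (range n) fun k _ => (mass_pos s k).le
    linarith [hall n]
  · intro N z hz
    rw [hFF]
    refine le_trans ?_ ((hI N).inner z hz)
    apply Real.exp_le_exp.2
    apply neg_le_neg
    have hr : 0 < 1 - ‖z‖ := by linarith
    have : 0 ≤ ‖z‖ ^ N := by positivity
    gcongr
    linarith
  · intro N w hw
    obtain ⟨z, h1, h3, -⟩ := (hI N).dense w hw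
    refine ⟨z, h1, ?_⟩
    rw [hff]
    refine h3.trans (pow_le_pow_of_le_one (by norm_num) (by norm_num) ?_)
    clear h3
    induction N with
    | zero => omega
    | succ N ih =>
      have : 1 ≤ (N + 15) * (N + 12) := Nat.mul_pos (by omega) (by omega)
      rw [ee]; omega

theorem main : ∃ a : ℕ → ℂ, a 0 = 0 ∧ Summable (fun n => ‖a n‖) ∧
      (∀ s : ℝ, s < 1 / 2 → Summable fun n : ℕ => (n : ℝ) ^ s * ‖a n‖) ∧
      (∀ z : ℂ, ‖z‖ < 1 → deriv (fun w : ℂ => ∑' n, a n * w ^ n) z ≠ 0) ∧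
      Metric.closedBall (1 : ℂ) ((1 / 2) ^ 10) ⊆
        (fun w : ℂ => ∑' n, a n * w ^ n) '' Metric.sphere (0 : ℂ) 1 := by
  obtain ⟨D, β, hD, hT, hin, hde⟩ := exists_limit
  let a : ℕ → ℂ := fun n => Nat.rec (motive := fun _ => ℂ) 0
    (fun k _ => (β k : ℂ) / ((k : ℂ) + 1)) n
  have ha0 : a 0 = 0 := rfl
  have has : ∀ k, a (k + 1) = (β k : ℂ) / ((k : ℂ) + 1) := fun _ => rfl
  have hnorm : ∀ k, ‖a (k + 1)‖ = (β k : ℝ) / ((k : ℝ) + 1) := by
    intro k
    rw [has, norm_div, Complex.norm_natCast, norm_cast_succ]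
  have hsum : Summable (fun n => ‖a n‖) := by
    rw [← summable_nat_add_iff 1]
    simpa [hnorm] using hT 0 le_rfl (by norm_num)
  have hws : ∀ s : ℝ, s < 1 / 2 → Summable fun n : ℕ => (n : ℝ) ^ s * ‖a n‖ := by
    intro s hs
    rw [← summable_nat_add_iff 1]
    refine Summable.of_nonneg_of_le (fun n => by positivity) (fun n => ?_)
      (hT (max s 0) (le_max_right _ _) (max_lt hs (by norm_num)))
    rw [hnorm]
    push_cast
    refine mul_le_mul_of_nonneg_right (Real.rpow_le_rpow_of_exponent_le ?_ (le_max_left _ _))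
      (by positivity)
    have : (0 : ℝ) ≤ n := by positivity
    linarith
  set f : ℂ → ℂ := fun w : ℂ => ∑' n, a n * w ^ n with hf
  have hbd : ∀ n (w : ℂ), w ∈ Metric.closedBall (0 : ℂ) 1 → ‖a n * w ^ n‖ ≤ ‖a n‖ := by
    intro n w hw
    rw [mem_closedBall_zero_iff] at hw
    rw [norm_mul, norm_pow]
    have : ‖w‖ ^ n ≤ 1 := pow_le_one₀ (norm_nonneg _) hw
    have h0 := norm_nonneg (a n)
    nlinarith
  have hU0 : TendstoUniformlyOn (fun (N : ℕ) (w : ℂ) => ∑ n ∈ range N, a n * w ^ n) f atTop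
      (Metric.closedBall (0 : ℂ) 1) := tendstoUniformlyOn_tsum_nat hsum hbd
  have hDt : Tendsto (fun N => D N + 1) atTop atTop :=
    (tendsto_add_atTop_nat 1).comp hD.tendsto_atTop
  have hpart : ∀ N (w : ℂ), ∑ n ∈ range (D N + 1), a n * w ^ n = ff (D N) β w := by
    intro N w
    rw [Finset.sum_range_succ', ha0, zero_mul, add_zero]
    rfl
  have hU : TendstoUniformlyOn (fun N => ff (D N) β) f atTop (Metric.closedBall (0 : ℂ) 1) := by
    have h1 : TendstoUniformlyOn
        (fun (N : ℕ) (w : ℂ) => ∑ n ∈ range (D N + 1), a n * w ^ n) f atTop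
        (Metric.closedBall (0 : ℂ) 1) := fun u hu => hDt.eventually (hU0 u hu)
    have e : (fun (N : ℕ) (w : ℂ) => ∑ n ∈ range (D N + 1), a n * w ^ n)
        = fun N => ff (D N) β := by
      funext N w; exact hpart N w
    rwa [e] at h1
  refine ⟨a, ha0, hsum, hws, ?_, ?_⟩
  · intro z hz
    have hL : TendstoLocallyUniformlyOn (fun N => ff (D N) β) f atTop (Metric.ball (0 : ℂ) 1) :=
      (hU.mono Metric.ball_subset_closedBall).tendstoLocallyUniformlyOn
    have hd := hL.deriv (Eventually.of_forall fun N w _ =>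
      (hasDerivAt_ff (D N) β w).differentiableAt.differentiableWithinAt) Metric.isOpen_ball
    have hp := hd.tendsto_at (mem_ball_zero_iff.2 hz)
    have hp' : Tendsto (fun N => ‖FF (D N) β z‖) atTop (𝓝 ‖deriv f z‖) := by
      refine Tendsto.norm (hp.congr fun N => ?_)
      exact (hasDerivAt_ff (D N) β z).deriv
    have hge := ge_of_tendsto' hp' (fun N => hin N z hz)
    intro h0
    rw [h0, norm_zero] at hge
    exact absurd hge (not_le.2 (Real.exp_pos _))
  · intro w hw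
    rw [Metric.mem_closedBall, dist_eq_norm] at hw
    have hcont : ContinuousOn f (Metric.closedBall (0 : ℂ) 1) :=
      continuousOn_tsum (fun n => by fun_prop) hsum hbd
    have hcomp : IsCompact (f '' Metric.sphere (0 : ℂ) 1) :=
      (isCompact_sphere 0 1).image_of_continuousOn (hcont.mono Metric.sphere_subset_closedBall)
    rw [← hcomp.isClosed.closure_eq, Metric.mem_closure_iff]
    intro δ hδ
    have he : Tendsto (fun N : ℕ => (1 / 2 : ℝ) ^ N) atTop (𝓝 0) :=
      tendsto_pow_atTop_nhds_zero_of_lt_one (by norm_num) (by norm_num)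
    have e1 : ∀ᶠ N : ℕ in atTop, (1 / 2 : ℝ) ^ N < δ / 2 :=
      he.eventually (gt_mem_nhds (by positivity))
    have e2 := Metric.tendstoUniformlyOn_iff.1 hU (δ / 2) (by positivity)
    obtain ⟨N, h1, h2⟩ := (e1.and e2).exists
    obtain ⟨z, hz, h3⟩ := hde N w hw
    refine ⟨f z, ⟨z, mem_sphere_zero_iff_norm.2 hz, rfl⟩, ?_⟩
    have h4 := h2 z (mem_closedBall_zero_iff.2 hz.le)
    have h5 := dist_triangle w (ff (D N) β z) (f z)
    rw [dist_comm] at h4
    have h6 : dist w (ff (D N) β z) ≤ (1 / 2) ^ N := by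
      rw [dist_comm, dist_eq_norm]; exact h3
    linarith

end Pool.Agent.Lib.MP_09c31c_an.TH
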