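import Pool.Agent.Lib.MP_09c31c_an.Limit

/-! If the coefficients are summable against the square root, the boundary curve is null. -/

set_option autoImplicit false

namespace Pool.Agent.Lib.MP_09c31c_an.TH

open Finset MeasureTheory Filter Topology

lemma pow_sub_le_sqrt (z w : ℂ) (hz : ‖z‖ = 1) (hw : ‖w‖ = 1) (n : ℕ) :
    ‖z ^ n - w ^ n‖ ≤ Real.sqrt n * Real.sqrt (2 * ‖z - w‖) := by
  rw [← Real.sqrt_mul (Nat.cast_nonneg n)]
  apply Real.le_sqrt_of_sq_le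
  have h1 := norm_pow_sub_pow z w hz.le hw.le n
  have h2 : ‖z ^ n - w ^ n‖ ≤ 2 := by
    refine (norm_sub_le _ _).trans ?_
    rw [norm_pow, norm_pow, hz, hw, one_pow]; norm_num
  have h3 := norm_nonneg (z ^ n - w ^ n)
  nlinarith

/-- little Hoelder condition of order one half -/
lemma little_holder (a : ℕ → ℂ) (f : ℂ → ℂ)
    (hs : Summable fun n : ℕ => Real.sqrt n * ‖a n‖)
    (hf : ∀ z : ℂ, ‖z‖ = 1 → HasSum (fun n => a n * z ^ n) (f z)) (η : ℝ) (hη : 0 < η) :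
    ∃ L : ℝ, 0 ≤ L ∧ ∀ z w : ℂ, ‖z‖ = 1 → ‖w‖ = 1 →
      ‖f z - f w‖ ≤ L * ‖z - w‖ + η * Real.sqrt (2 * ‖z - w‖) := by
  have ht := tendsto_sum_nat_add (fun n : ℕ => Real.sqrt n * ‖a n‖)
  obtain ⟨M, hM⟩ := (ht.eventually (ge_mem_nhds hη)).exists
  refine ⟨∑ n ∈ range M, ‖a n‖ * n, by positivity, fun z w hz hw => ?_⟩
  have h1 := (hf z hz).sub (hf w hw)
  have h2 := (hasSum_nat_add_iff' M).2 h1
  have h3 : Summable fun n : ℕ => Real.sqrt ((n + M : ℕ) : ℝ) * ‖a (n + M)‖ :=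
    (summable_nat_add_iff (f := fun n : ℕ => Real.sqrt n * ‖a n‖) M).2 hs
  have h4 := (h3.hasSum.mul_right (Real.sqrt (2 * ‖z - w‖)))
  have h5 := h2.norm_le_of_bounded h4 fun n => by
    rw [← mul_sub, norm_mul]
    have := pow_sub_le_sqrt z w hz hw (n + M)
    calc ‖a (n + M)‖ * ‖z ^ (n + M) - w ^ (n + M)‖
        ≤ ‖a (n + M)‖ * (Real.sqrt ((n + M : ℕ) : ℝ) * Real.sqrt (2 * ‖z - w‖)) := by gcongr
      _ = _ := by ring
  have h6 : ‖∑ n ∈ range M, (a n * z ^ n - a n * w ^ n)‖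
      ≤ (∑ n ∈ range M, ‖a n‖ * n) * ‖z - w‖ := by
    rw [Finset.sum_mul]
    refine (norm_sum_le _ _).trans (Finset.sum_le_sum fun n _ => ?_)
    rw [← mul_sub, norm_mul, mul_assoc]
    exact mul_le_mul_of_nonneg_left (norm_pow_sub_pow z w hz.le hw.le n) (norm_nonneg _)
  have h7 := norm_add_le (∑ n ∈ range M, (a n * z ^ n - a n * w ^ n))
    (f z - f w - ∑ n ∈ range M, (a n * z ^ n - a n * w ^ n))
  rw [add_sub_cancel] at h7
  have h8 := mul_le_mul_of_nonneg_right hM (Real.sqrt_nonneg (2 * ‖z - w‖))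
  linarith

lemma circle_net (k : ℕ) (hk : 0 < k) (z : ℂ) (hz : ‖z‖ = 1) :
    ∃ j ∈ range (k + 1),
      ‖z - Complex.exp (((-Real.pi + j * (2 * Real.pi / k) : ℝ) : ℂ) * Complex.I)‖ ≤ 7 / k := by
  have hk' : (0 : ℝ) < k := by exact_mod_cast hk
  have hp := Real.pi_pos
  have hp7 : 2 * Real.pi ≤ 7 := by have := Real.pi_lt_d2; linarith
  have hd : 0 < 2 * Real.pi / k := by positivity
  have h1 := Complex.neg_pi_lt_arg z
  have h2 := Complex.arg_le_pi z
  set x := (Complex.arg z + Real.pi) / (2 * Real.pi / k) with hx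
  have hx0 : 0 ≤ x := div_nonneg (by linarith) hd.le
  have hxk : x ≤ k := by
    rw [hx, div_le_iff₀ hd]
    have : (k : ℝ) * (2 * Real.pi / k) = 2 * Real.pi := by field_simp
    linarith
  refine ⟨⌊x⌋₊, Finset.mem_range.2 (Nat.lt_succ_of_le (Nat.floor_le_of_le hxk)), ?_⟩
  have hz' : z = Complex.exp ((Complex.arg z : ℂ) * Complex.I) := by
    have := Complex.norm_mul_exp_arg_mul_I z
    rw [hz] at this
    simpa using this.symm
  have h3 := exp_close (Complex.arg z) (-Real.pi + ⌊x⌋₊ * (2 * Real.pi / k))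
  rw [← hz'] at h3
  refine h3.trans ?_
  have h4 := Nat.floor_le hx0
  have h5 := Nat.lt_floor_add_one x
  have h6 : Complex.arg z + Real.pi = x * (2 * Real.pi / k) := by rw [hx]; field_simp
  have h7 : 2 * Real.pi / k ≤ 7 / k := by gcongr
  rw [abs_le]
  constructor <;> nlinarith

theorem null_image (a : ℕ → ℂ) (f : ℂ → ℂ)
    (hs : Summable fun n : ℕ => Real.sqrt n * ‖a n‖)
    (hf : ∀ z : ℂ, ‖z‖ = 1 → HasSum (fun n => a n * z ^ n) (f z)) :
    volume (f '' Metric.sphere 0 1) = 0 := by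
  have key : ∀ η : ℝ, 0 < η → volume (f '' Metric.sphere 0 1) ≤ ENNReal.ofReal (400 * η ^ 2) := by
    intro η hη
    obtain ⟨L, hL, h⟩ := little_holder a f hs hf η hη
    obtain ⟨k, hk⟩ := exists_nat_gt (L ^ 2 * 7 / η ^ 2)
    have hk' : (0 : ℝ) < k := lt_of_le_of_lt (by positivity) hk
    have hk0 : 0 < k := by exact_mod_cast hk'
    have hk1 : (1 : ℝ) ≤ k := by exact_mod_cast hk0
    set δ : ℝ := 7 / k with hδ
    have hδ0 : 0 < δ := by positivity
    set ρ : ℝ := L * δ + η * Real.sqrt (2 * δ) with hρ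
    have hρ0 : 0 ≤ ρ := by positivity
    have hsub : f '' Metric.sphere 0 1 ⊆ ⋃ j ∈ range (k + 1), Metric.closedBall
        (f (Complex.exp (((-Real.pi + j * (2 * Real.pi / k) : ℝ) : ℂ) * Complex.I))) ρ := by
      rintro _ ⟨z, hz, rfl⟩
      rw [mem_sphere_zero_iff_norm] at hz
      obtain ⟨j, hj, hjz⟩ := circle_net k hk0 z hz
      refine Set.mem_biUnion hj ?_
      rw [Metric.mem_closedBall, dist_eq_norm]
      refine (h z _ hz (Complex.norm_exp_ofReal_mul_I _)).trans ?_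
      rw [hρ]
      gcongr
    have hρ2 : ρ ^ 2 ≤ 6 * η ^ 2 * δ := by
      have h1 : Real.sqrt (2 * δ) ^ 2 = 2 * δ := Real.sq_sqrt (by positivity)
      have h2 : L ^ 2 * δ ≤ η ^ 2 := by
        rw [div_lt_iff₀ (by positivity)] at hk
        rw [hδ, ← mul_div_assoc, div_le_iff₀ hk']
        linarith
      have h3 : ρ ^ 2 ≤ 2 * (L * δ) ^ 2 + 2 * (η * Real.sqrt (2 * δ)) ^ 2 := by
        rw [hρ]; nlinarith [sq_nonneg (L * δ - η * Real.sqrt (2 * δ))]
      rw [mul_pow, mul_pow, h1] at h3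
      nlinarith
    refine (measure_mono hsub).trans ((measure_biUnion_finset_le _ _).trans ?_)
    simp only [Complex.volume_closedBall, Finset.sum_const, Finset.card_range, nsmul_eq_mul]
    rw [← ENNReal.ofReal_pow hρ0, ← ENNReal.ofReal_coe_nnreal, NNReal.coe_real_pi,
      ← ENNReal.ofReal_mul (by positivity), ← ENNReal.ofReal_natCast,
      ← ENNReal.ofReal_mul (by positivity)]
    refine ENNReal.ofReal_le_ofReal ?_
    have hp : Real.pi ≤ 4 := Real.pi_le_four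
    have hp0 := Real.pi_pos
    have h4 : ((k + 1 : ℕ) : ℝ) ≤ 2 * k := by push_cast; linarith
    have h5 : (k : ℝ) * δ = 7 := by rw [hδ]; field_simp
    calc ((k + 1 : ℕ) : ℝ) * (ρ ^ 2 * Real.pi) ≤ (2 * k) * (6 * η ^ 2 * δ * 4) := by gcongr
      _ = 48 * η ^ 2 * (k * δ) := by ring
      _ ≤ 400 * η ^ 2 := by rw [h5]; nlinarith [sq_nonneg η]
  have ht : Tendsto (fun η : ℝ => ENNReal.ofReal (400 * η ^ 2)) (𝓝[>] 0) (𝓝 0) := by
    have h1 : Tendsto (fun η : ℝ => 400 * η ^ 2) (𝓝 0) (𝓝 (400 * 0 ^ 2)) :=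
      (by fun_prop : Continuous fun η : ℝ => 400 * η ^ 2).tendsto 0
    have h2 := ENNReal.tendsto_ofReal (h1.mono_left (nhdsWithin_le_nhds (s := Set.Ioi 0)))
    simpa using h2
  exact le_antisymm (ge_of_tendsto ht (eventually_nhdsWithin_of_forall key)) zero_le

end Pool.Agent.Lib.MP_09c31c_an.TH
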