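import Pool.Agent.Lib.MP_09c31c_an.TH.Step

/-! The inductive construction with explicit parameters. -/

set_option autoImplicit false

namespace Pool.Agent.Lib.MP_09c31c_an.TH

open Finset Filter Topology

/-- binary logarithm of the accuracy at stage `N` -/
def ee : ℕ → ℕ
  | 0 => 10
  | N + 1 => ee N + (N + 15) * (N + 12)

/-- binary logarithm of the coefficient sum of the derivative at stage `N` -/
def PP : ℕ → ℕ
  | 0 => 0
  | N + 1 => PP N + (N + 15) ^ 2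

structure Inv (N D : ℕ) (b : ℕ → ℕ) : Prop where
  zero : ∀ n, D ≤ n → b n = 0
  val : BB D b = 2 ^ PP N
  inner : ∀ z : ℂ, ‖z‖ < 1 → Real.exp (-((1 - ‖z‖ ^ N) / (1 - ‖z‖) ^ 3)) ≤ ‖FF D b z‖
  small : D * (4 ^ N) ^ 2 * (1 / 2 : ℝ) ^ ee N ≤ 2 ^ PP N / 1000
  dense : ∀ w : ℂ, ‖w - 1‖ ≤ (1 / 2) ^ 10 → ∃ z : ℂ, ‖z‖ = 1 ∧
    ‖ff D b z - w‖ ≤ (1 / 2) ^ ee N ∧ BB D b ≤ 4 ^ N * ‖FF D b z‖

lemma sq_le_two_pow (n : ℕ) : (n + 4) ^ 2 ≤ 2 ^ (n + 4) := by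
  induction n with
  | zero => norm_num
  | succ n ih =>
    have : 2 ^ (n + 1 + 4) = 2 * 2 ^ (n + 4) := by ring
    have h2 : (n + 1 + 4) ^ 2 + (n ^ 2 + 6 * n + 7) = 2 * (n + 4) ^ 2 := by ring
    omega

lemma params (B ε c : ℝ) (D q : ℕ) (hε : 0 < ε) (hc : 1 ≤ c) (hD : 1 ≤ D) (hq : 200 ≤ q)
    (hsm : D * c ^ 2 * ε ≤ B / 1000) :
    ∃ m : ℕ, D ≤ m ∧ 2 * (q + 2) ≤ m ∧ 4 * ε * c ≤ B * (2 ^ (q + 2) / ((q : ℝ) + 2) / m) ∧
      B * (2 ^ (q + 2) / ((q : ℝ) + 2) / m) ≤ 5 * ε * c := by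
  have hρ : (q : ℝ) + 2 ≤ 2 ^ (q + 2) / ((q : ℝ) + 2) := by
    rw [le_div_iff₀ (by positivity)]
    have h := sq_le_two_pow (q - 2)
    have e : q - 2 + 4 = q + 2 := by omega
    rw [e, sq] at h
    exact_mod_cast h
  set ρ : ℝ := 2 ^ (q + 2) / ((q : ℝ) + 2)
  have hq' : (200 : ℝ) ≤ q := by exact_mod_cast hq
  have hD' : (1 : ℝ) ≤ D := by exact_mod_cast hD
  have hεc : 0 < ε * c := by positivity
  set X : ℝ := B * ρ / (4 * (ε * c)) with hX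
  have hX1 : 250 * (D * ρ) ≤ X := by
    rw [hX, le_div_iff₀ (by positivity)]
    have h1 : D * (ε * c) ≤ D * c ^ 2 * ε := by
      have : D * (ε * c) * 1 ≤ D * (ε * c) * c := by gcongr
      nlinarith
    have h2 : 1000 * (D * (ε * c)) ≤ B := by linarith
    have h3 : 1000 * (D * (ε * c)) * ρ ≤ B * ρ := by gcongr
    linarith
  have hX2 : (D : ℝ) ≤ X := by nlinarith
  have hX3 : 2 * ((q : ℝ) + 2) ≤ X := by nlinarith
  have hm1 : ((⌊X⌋₊ : ℕ) : ℝ) ≤ X := Nat.floor_le (by linarith)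
  have hm2 : X < ((⌊X⌋₊ : ℕ) : ℝ) + 1 := Nat.lt_floor_add_one X
  have hm0 : (4 : ℝ) ≤ (⌊X⌋₊ : ℕ) := by linarith
  have hBX : X * (4 * (ε * c)) = B * ρ := div_mul_cancel₀ _ (by positivity)
  have hBR : B * (ρ / (⌊X⌋₊ : ℕ)) = X * (4 * (ε * c)) / (⌊X⌋₊ : ℕ) := by
    rw [hBX, mul_div_assoc]
  refine ⟨⌊X⌋₊, Nat.le_floor hX2, Nat.le_floor (by push_cast; exact hX3), ?_, ?_⟩
  · rw [hBR, le_div_iff₀ (by linarith)]; nlinarith
  · rw [hBR, div_le_iff₀ (by linarith)]; nlinarith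

lemma num_small (N : ℕ) :
    ((4 : ℝ) ^ (N + 1)) ^ 2 * (1 / 2) ^ ((N + 15) * (N + 12)) ≤ 1 / 1000 := by
  have h1 : (2 : ℝ) ^ (4 * N + 14) ≤ 2 ^ ((N + 15) * (N + 12)) :=
    pow_le_pow_right₀ (by norm_num) (by nlinarith)
  have h2 : ((4 : ℝ) ^ (N + 1)) ^ 2 * 1024 = 2 ^ (4 * N + 14) := by
    rw [show (4 : ℝ) = 2 ^ 2 by norm_num, ← pow_mul, ← pow_mul,
      show (1024 : ℝ) = 2 ^ 10 by norm_num, ← pow_add]
    congr 1; ring
  rw [one_div_pow, mul_one_div, div_le_div_iff₀ (by positivity) (by norm_num)]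
  have h3 : (0 : ℝ) ≤ (4 ^ (N + 1)) ^ 2 := by positivity
  linarith

lemma num_dense (N q : ℕ) (hq : q + 1 = (N + 15) ^ 2) :
    40 * (4 : ℝ) ^ N * ((q : ℝ) + 2) ≤ (1 / 2) ^ ((N + 15) * (N + 12)) * 2 ^ (q + 2) := by
  have h1 : q + 2 = (N + 15) * (N + 12) + (3 * N + 46) := by nlinarith
  have h2 : q + 2 ≤ 2 ^ (N + 16) := by
    have h := sq_le_two_pow (N + 11)
    have e : 2 ^ (N + 16) = 2 * 2 ^ (N + 11 + 4) := by ring
    have e2 : N + 11 + 4 = N + 15 := by ring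
    rw [e]
    rw [e2] at h ⊢
    omega
  have h3 : (q : ℝ) + 2 ≤ 2 ^ (N + 16) := by exact_mod_cast h2
  have h4 : (1 / 2 : ℝ) ^ ((N + 15) * (N + 12)) * 2 ^ (q + 2) = 2 ^ (3 * N + 46) := by
    rw [h1, pow_add (2 : ℝ), ← mul_assoc, ← mul_pow]; norm_num
  have h5 : (4 : ℝ) ^ N * 2 ^ (N + 16) * 2 ^ 30 = 2 ^ (3 * N + 46) := by
    rw [show (4 : ℝ) = 2 ^ 2 by norm_num, ← pow_mul, ← pow_add, ← pow_add]
    congr 1; ring
  rw [h4, ← h5]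
  calc 40 * (4 : ℝ) ^ N * ((q : ℝ) + 2) = 4 ^ N * ((q : ℝ) + 2) * 40 := by ring
    _ ≤ 4 ^ N * 2 ^ (N + 16) * 2 ^ 30 := by gcongr; norm_num

lemma step (N D : ℕ) (b : ℕ → ℕ) (h : Inv N D b) :
    ∃ (D' : ℕ) (b' : ℕ → ℕ), Inv (N + 1) D' b' ∧ D < D' ∧ (∀ n, n < D → b' n = b n) ∧
      TT D' b' ≤ TT D b + 10 * ((1 / 2) ^ ee N * 4 ^ N) ∧
      (D' : ℝ) ≤ 2 ^ (PP N + (N + 15) ^ 2 + ee N) := by
  obtain ⟨q, hq0⟩ : ∃ q, q = N ^ 2 + 30 * N + 224 := ⟨_, rfl⟩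
  have hq : q + 1 = (N + 15) ^ 2 := by rw [hq0]; ring
  have hq2 : 200 ≤ q := by omega
  have hNq : N ≤ q := by omega
  have hB1 : 1 ≤ BB D b := by rw [h.val]; exact one_le_pow₀ (by norm_num)
  have hD : 1 ≤ D := by
    rcases Nat.eq_zero_or_pos D with h0 | h0
    · rw [h0] at hB1; norm_num [BB] at hB1
    · exact h0
  set ε : ℝ := (1 / 2) ^ ee N with hεd
  set c : ℝ := 4 ^ N with hcd
  have hε : 0 < ε := by positivity
  have hc : 1 ≤ c := one_le_pow₀ (by norm_num)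
  have hsm : D * c ^ 2 * ε ≤ BB D b / 1000 := by rw [h.val]; exact h.small
  obtain ⟨m, hDm, hqm, hlo, hhi⟩ := params (BB D b) ε c D q hε hc hD hq2 hsm
  have hm : 0 < m := by omega
  have hm' : (0 : ℝ) < m := by exact_mod_cast hm
  set R : ℝ := 2 ^ (q + 2) / ((q : ℝ) + 2) / m with hR
  have hR0 : 0 < R := by positivity
  have hsR : D * c * R ≤ 1 / 200 := by
    have h1 : D * c * (BB D b * R) ≤ D * c * (5 * ε * c) := by gcongr
    have h2 : BB D b * (D * c * R) ≤ BB D b * (1 / 200) := by nlinarith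
    exact le_of_mul_le_mul_left h2 (by linarith)
  have hval : BB (m * (q + 1 + 1)) (nb (q + 1) m b) = 2 ^ PP (N + 1) := by
    rw [BB_nb, BB_extend D m b hDm h.zero, h.val, hq, PP, pow_add, mul_comm]
  have hval2 : (2 : ℝ) ^ PP (N + 1) = BB D b * 2 ^ (q + 1) := by
    rw [h.val, hq, PP, pow_add]
  have hDε : ((m * (q + 1 + 1) : ℕ) : ℝ) * ε ≤ 2 ^ PP (N + 1) := by
    have h1 : R * (m * ((q : ℝ) + 2)) = 2 * 2 ^ (q + 1) := by rw [hR]; field_simp; ring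
    have h2 : 4 * ε * c * (m * ((q : ℝ) + 2)) ≤ BB D b * R * (m * ((q : ℝ) + 2)) := by gcongr
    rw [mul_assoc (BB D b), h1] at h2
    have h3 : 0 < ε * (m * ((q : ℝ) + 2)) := by positivity
    have h4 : ε * (m * ((q : ℝ) + 2)) * 1 ≤ ε * (m * ((q : ℝ) + 2)) * c := by gcongr
    rw [hval2]
    push_cast
    nlinarith
  have hε' : (1 / 2 : ℝ) ^ ee (N + 1) = ε * (1 / 2) ^ ((N + 15) * (N + 12)) := by
    rw [ee, pow_add]
  refine ⟨m * (q + 1 + 1), nb (q + 1) m b, ⟨?_, hval, ?_, ?_, ?_⟩, ?_, ?_, ?_, ?_⟩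
  · exact fun n hn => nb_large (q + 1) m hm b n hn
  · intro z hz
    rw [FF_nb, FF_extend D m b hDm h.zero, norm_mul, norm_pow]
    have h1 := h.inner z hz
    have h2 := one_sub_pow_ge ‖z‖ (norm_nonneg _) hz (q + 1) m N (by omega)
    have h3 : 1 - ‖z‖ ^ m ≤ ‖1 + z ^ m‖ := by
      have := norm_sub_le (1 + z ^ m) (z ^ m)
      rw [add_sub_cancel_right, norm_one, norm_pow] at this
      linarith
    have h4 : 0 ≤ 1 - ‖z‖ ^ m := by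
      have : ‖z‖ ^ m ≤ 1 := pow_le_one₀ (norm_nonneg _) hz.le
      linarith
    have h5 : (1 - ‖z‖ ^ m) ^ (q + 1) ≤ ‖1 + z ^ m‖ ^ (q + 1) := pow_le_pow_left₀ h4 h3 _
    have hr : 0 < 1 - ‖z‖ := by linarith
    have e : -((1 - ‖z‖ ^ (N + 1)) / (1 - ‖z‖) ^ 3)
        = -((1 - ‖z‖ ^ N) / (1 - ‖z‖) ^ 3) + -(‖z‖ ^ N / (1 - ‖z‖) ^ 2) := by
      field_simp; ring
    rw [e, Real.exp_add]
    exact mul_le_mul h1 (h2.trans h5) (Real.exp_pos _).le (norm_nonneg _)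
  · rw [hε']
    calc ((m * (q + 1 + 1) : ℕ) : ℝ) * (4 ^ (N + 1)) ^ 2 * (ε * (1 / 2) ^ ((N + 15) * (N + 12)))
        = (((m * (q + 1 + 1) : ℕ) : ℝ) * ε)
          * ((4 ^ (N + 1)) ^ 2 * (1 / 2) ^ ((N + 15) * (N + 12))) := by ring
      _ ≤ 2 ^ PP (N + 1) * (1 / 1000) := by gcongr; exact num_small N
      _ = _ := by ring
  · intro w hw
    obtain ⟨z0, hz0, h1, h2⟩ := h.dense w hw
    obtain ⟨z, hz, h3, h4⟩ := dense_step ε c R D b hc h.zero hB1 q m hq2 hDm hm hR hlo hsR w z0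
      hz0 h1 h2
    refine ⟨z, hz, h3.trans ?_, by rw [pow_succ' (4 : ℝ) N]; exact h4⟩
    have h5 := num_dense N q hq
    have h6 : BB D b / m * 2 ^ (q + 2) = BB D b * R * ((q : ℝ) + 2) := by rw [hR]; field_simp
    have h7 : BB D b * R * ((q : ℝ) + 2) ≤ 5 * ε * c * ((q : ℝ) + 2) := by gcongr
    have h8 := mul_le_mul_of_nonneg_left h5 hε.le
    rw [hε']
    refine le_of_mul_le_mul_right (a := 2 ^ (q + 2)) ?_ (by positivity)
    rw [mul_assoc 8, h6]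
    rw [← hcd] at h8
    linarith
  · nlinarith
  · exact fun n hn => nb_small _ _ _ _ (by omega)
  · have := TT_nb (q + 1) m hm b
    rw [TT_extend D m b hDm h.zero, BB_extend D m b hDm h.zero] at this
    refine this.trans ?_
    have e : (2 : ℝ) ^ (q + 1 + 1) / ((((q + 1 : ℕ) : ℝ) + 1) * m) = R := by
      rw [hR, div_div]; push_cast; ring_nf
    rw [e]; linarith
  · have e : (2 : ℝ) ^ (PP N + (N + 15) ^ 2 + ee N) * ε = 2 ^ PP (N + 1) := by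
      rw [hεd, PP, pow_add (2 : ℝ) _ (ee N), mul_assoc, ← mul_pow]; norm_num
    exact le_of_mul_le_mul_right (e ▸ hDε) hε

lemma base : Inv 0 1 (fun n => if n = 0 then 1 else 0) := by
  refine ⟨?_, ?_, ?_, ?_, ?_⟩
  · intro n hn; simp; omega
  · simp [BB, PP]
  · intro z _; simp [FF]
  · norm_num [ee, PP]
  · intro w hw
    refine ⟨1, by simp, ?_, by simp [BB, FF]⟩
    rw [norm_sub_rev] at hw
    simpa [ff, ee] using hw

lemma exists_seq : ∃ (D : ℕ → ℕ) (b : ℕ → ℕ → ℕ), (∀ N, Inv N (D N) (b N)) ∧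
    (∀ N, D N < D (N + 1)) ∧ (∀ N n, n < D N → b (N + 1) n = b N n) ∧
    (∀ N, TT (D (N + 1)) (b (N + 1)) ≤ TT (D N) (b N) + 10 * ((1 / 2) ^ ee N * 4 ^ N)) ∧
    ∀ N, (D (N + 1) : ℝ) ≤ 2 ^ (PP N + (N + 15) ^ 2 + ee N) := by
  let S : ℕ → Type := fun N => {s : ℕ × (ℕ → ℕ) // Inv N s.1 s.2}
  have hstep : ∀ N (s : S N), ∃ s' : S (N + 1), s.1.1 < s'.1.1 ∧
      (∀ n, n < s.1.1 → s'.1.2 n = s.1.2 n) ∧
      TT s'.1.1 s'.1.2 ≤ TT s.1.1 s.1.2 + 10 * ((1 / 2) ^ ee N * 4 ^ N) ∧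
      (s'.1.1 : ℝ) ≤ 2 ^ (PP N + (N + 15) ^ 2 + ee N) := by
    intro N s
    obtain ⟨D', b', h1, h2⟩ := step N s.1.1 s.1.2 s.2
    exact ⟨⟨(D', b'), h1⟩, h2⟩
  choose next hnext using hstep
  let seq : ∀ N, S N := fun N => Nat.rec (motive := S)
    ⟨(1, fun n => if n = 0 then 1 else 0), base⟩ (fun N s => next N s) N
  exact ⟨fun N => (seq N).1.1, fun N => (seq N).1.2, fun N => (seq N).2,
    fun N => (hnext N (seq N)).1, fun N => (hnext N (seq N)).2.1,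
    fun N => (hnext N (seq N)).2.2.1, fun N => (hnext N (seq N)).2.2.2⟩

end Pool.Agent.Lib.MP_09c31c_an.TH
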