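import Pool.Agent.Lib.MP_09c31c_an.TH.Approx
import Pool.Agent.Lib.MP_09c31c_an.TH.Hit

/-! One step: the translated copies of one turn of the new curve pass near every target point. -/

set_option autoImplicit false

namespace Pool.Agent.Lib.MP_09c31c_an.TH

open Finset Complex

lemma norm_rot_sub (z : ℂ) (hz : ‖z‖ = 1) (x : ℝ) : ‖z * exp ((x : ℂ) * I) - z‖ ≤ |x| := by
  have h := exp_close x 0
  have e : z * exp ((x : ℂ) * I) - z = z * (exp ((x : ℂ) * I) - exp (((0 : ℝ) : ℂ) * I)) := by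
    simp [mul_sub]
  rw [e, norm_mul, hz, one_mul]
  simpa using h

lemma rho_ge (q : ℕ) (hq : 200 ≤ q) : (100 : ℝ) ≤ 2 ^ (q + 2) / ((q : ℝ) + 2) := by
  rw [le_div_iff₀ (by positivity)]
  have h : ∀ n : ℕ, 100 * (n + 12) ≤ 2 ^ (n + 12) := by
    intro n
    induction n with
    | zero => norm_num
    | succ n ih =>
      have : 2 ^ (n + 1 + 12) = 2 * 2 ^ (n + 12) := by ring
      omega
  have h2 := h (q - 10)
  have e : q - 10 + 12 = q + 2 := by omega
  rw [e] at h2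
  exact_mod_cast h2

/-- the two parameter family meets the target exactly -/
lemma solve (ε c R : ℝ) (D : ℕ) (b : ℕ → ℕ) (hc : 1 ≤ c) (hB : 1 ≤ BB D b) (q m : ℕ)
    (hq : 200 ≤ q) (hm : 0 < m) (hR : R = 2 ^ (q + 2) / ((q : ℝ) + 2) / m)
    (hlo : 4 * ε * c ≤ BB D b * R) (hsm : D * c * R ≤ 1 / 200) (w z0 : ℂ) (hz0 : ‖z0‖ = 1)
    (h2 : ‖ff D b z0 - w‖ ≤ ε) (h3 : BB D b ≤ c * ‖FF D b z0‖) :
    ∃ (x u : ℝ), |x| ≤ 2 * R ∧ 0 ≤ u ∧ u ≤ Real.pi ∧
      ff D b (z0 * exp ((x : ℂ) * I)) + z0 * exp ((x : ℂ) * I) * FF D b (z0 * exp ((x : ℂ) * I))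
        * (GG (q + 1) (exp (((2 * (u / q) : ℝ) : ℂ) * I)) / m) = w := by
  have hm' : (0 : ℝ) < m := by exact_mod_cast hm
  have hq' : (200 : ℝ) ≤ q := by exact_mod_cast hq
  have hρ100 := rho_ge q hq
  set B := BB D b with hBdef
  set ρ : ℝ := 2 ^ (q + 2) / ((q : ℝ) + 2) with hρ
  have hR0 : 0 < R := by rw [hR]; positivity
  have hRm : R * m = ρ := by rw [hR]; field_simp
  set A : ℂ := z0 * FF D b z0 with hA
  set S : ℝ := ‖FF D b z0‖ with hS
  have hAn : ‖A‖ = S := by rw [hA, norm_mul, hz0, one_mul]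
  have hS0 : 0 < S := by
    by_contra h
    have : S = 0 := le_antisymm (not_lt.1 h) (norm_nonneg _)
    rw [this] at h3; linarith
  have hA0 : A ≠ 0 := norm_pos_iff.1 (by rw [hAn]; exact hS0)
  have hRc : (R : ℂ) ≠ 0 := by exact_mod_cast hR0.ne'
  have hmc : (m : ℂ) ≠ 0 := by exact_mod_cast hm.ne'
  have hRn : ‖(R : ℂ)‖ = R := by rw [Complex.norm_real, Real.norm_eq_abs, abs_of_pos hR0]
  have hD0 : (0 : ℝ) ≤ D := by positivity
  have hDR : D * R ≤ 1 / 200 := by nlinarith [mul_nonneg hD0 hR0.le]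
  have hSR : 0 < S * R := by positivity
  have hDBR : D * B * R ≤ S / 200 := by
    calc D * B * R ≤ D * (c * S) * R := by gcongr
      _ = (D * c * R) * S := by ring
      _ ≤ 1 / 200 * S := by gcongr
      _ = S / 200 := by ring
  let Φ : ℝ × ℝ → ℂ := fun p =>
    ff D b (z0 * exp (((p.1 * R : ℝ) : ℂ) * I)) + z0 * exp (((p.1 * R : ℝ) : ℂ) * I)
      * FF D b (z0 * exp (((p.1 * R : ℝ) : ℂ) * I))
      * (GG (q + 1) (exp (((2 * (p.2 / q) : ℝ) : ℂ) * I)) / m) - w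
  have hΦc : Continuous Φ := by
    simp only [Φ, ff, FF, GG]
    fun_prop
  obtain ⟨y, hy, u, hu, h0⟩ := hit (fun p => Φ p / (A * R)) (hΦc.div_const _) fun y hy u hu => by
    have hy2 : |y| ≤ 2 := abs_le.2 hy
    have hx : |y * R| ≤ 2 * R := by rw [abs_mul, abs_of_pos hR0]; gcongr
    have e0 : Φ (y, u) / (A * R) - ((y : ℂ) * I + exp ((u : ℂ) * I))
        = (Φ (y, u) - A * R * ((y : ℂ) * I + exp ((u : ℂ) * I))) / (A * R) := by
      field_simp
    rw [e0, norm_div, norm_mul, hAn, hRn, div_le_iff₀ hSR]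
    set z : ℂ := z0 * exp (((y * R : ℝ) : ℂ) * I) with hz
    set ω : ℂ := exp (((2 * (u / q) : ℝ) : ℂ) * I) with hω
    have hzn : ‖z‖ = 1 := by rw [hz, norm_mul, hz0, Complex.norm_exp_ofReal_mul_I, one_mul]
    have hωn : ‖ω‖ = 1 := Complex.norm_exp_ofReal_mul_I _
    set C : ℝ := Real.cos (u / q) ^ (q + 2) with hC
    have hC1 : 19 / 20 ≤ C := (cos_pow_ge q hq u hu.1 hu.2).2
    have hC2 : C ≤ 1 := pow_le_one₀ (cos_pow_ge q hq u hu.1 hu.2).1 (Real.cos_le_one _)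
    have hpr := profile q (u / q)
    have hqu : (q : ℝ) * (u / q) = u := by field_simp
    rw [hqu, ← hω, ← hρ, ← hC] at hpr
    have a1 : ‖ff D b z - ff D b z0 - ((y * R : ℝ) : ℂ) * I * A‖ ≤ S * R / 50 := by
      refine (ff_taylor D b z0 hz0 (y * R) (by nlinarith [abs_nonneg (y * R)])).trans ?_
      have h4 : (y * R) ^ 2 ≤ (2 * R) ^ 2 := by
        rw [← sq_abs]; gcongr
      calc D * B * (y * R) ^ 2 ≤ D * B * (2 * R) ^ 2 := by gcongr
        _ = 4 * (D * B * R) * R := by ring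
        _ ≤ 4 * (S / 200) * R := by gcongr
        _ = S * R / 50 := by ring
    have hG : ‖GG (q + 1) ω / m‖ ≤ 2 * R := by
      have := norm_GG_le (q + 1) ω hωn
      rw [norm_div, Complex.norm_natCast, div_le_iff₀ hm', mul_assoc, hRm, hρ]
      refine this.trans (le_of_eq ?_)
      push_cast; ring_nf
    have a2 : ‖(z * FF D b z - A) * (GG (q + 1) ω / m)‖ ≤ S * R / 50 := by
      have h4 := GG_lip D b z z0 hzn.le hz0.le
      have h5 : ‖z - z0‖ ≤ 2 * R := (norm_rot_sub z0 hz0 (y * R)).trans hx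
      rw [norm_mul]
      calc ‖z * FF D b z - A‖ * ‖GG (q + 1) ω / m‖ ≤ (D * B * (2 * R)) * (2 * R) := by
            gcongr
            exact h4.trans (by gcongr)
        _ = 4 * (D * B * R) * R := by ring
        _ ≤ 4 * (S / 200) * R := by gcongr
        _ = S * R / 50 := by ring
    have a3 : ‖A * ((GG (q + 1) ω - ((ρ * C : ℝ) : ℂ) * exp ((u : ℂ) * I)) / m)‖ ≤ S * R / 20 := by
      have h4 := GG_approx (q + 1) ω hωn
      rw [hpr] at h4
      have h5 : 6 * (2 ^ (q + 1 + 1) / (((q + 1 : ℕ) : ℝ) + 1)) / (((q + 1 : ℕ) : ℝ) + 2) + 2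
          ≤ ρ / 20 := by
        have e : (2 : ℝ) ^ (q + 1 + 1) / (((q + 1 : ℕ) : ℝ) + 1) = ρ := by
          rw [hρ]; push_cast; ring_nf
        rw [e]
        have : 6 * ρ / (((q + 1 : ℕ) : ℝ) + 2) ≤ 6 * ρ / 200 := by
          gcongr; push_cast; linarith
        linarith
      rw [norm_mul, hAn, norm_div, Complex.norm_natCast, mul_div_assoc S R]
      refine mul_le_mul_of_nonneg_left ?_ hS0.le
      rw [div_le_iff₀ hm']
      linarith
    have a4 : ‖A * R * (((C - 1 : ℝ) : ℂ) * exp ((u : ℂ) * I))‖ ≤ S * R / 20 := by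
      rw [norm_mul, norm_mul A, hAn, hRn, norm_mul, Complex.norm_exp_ofReal_mul_I, mul_one,
        Complex.norm_real, Real.norm_eq_abs, abs_of_nonpos (by linarith)]
      nlinarith
    have a0 : ‖ff D b z0 - w‖ ≤ S * R / 4 := by
      have h4 : 4 * ε * c ≤ c * S * R := hlo.trans (by gcongr)
      have h5 : c * (4 * ε) ≤ c * (S * R) := by linarith
      have := le_of_mul_le_mul_left h5 (by linarith)
      linarith
    have hρc : ((ρ : ℝ) : ℂ) = (R : ℂ) * m := by rw [← hRm]; push_cast; ring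
    have e1 : Φ (y, u) - A * R * ((y : ℂ) * I + exp ((u : ℂ) * I))
        = (ff D b z0 - w) + (ff D b z - ff D b z0 - ((y * R : ℝ) : ℂ) * I * A)
          + (z * FF D b z - A) * (GG (q + 1) ω / m)
          + A * ((GG (q + 1) ω - ((ρ * C : ℝ) : ℂ) * exp ((u : ℂ) * I)) / m)
          + A * R * (((C - 1 : ℝ) : ℂ) * exp ((u : ℂ) * I)) := by
      have : Φ (y, u) = ff D b z + z * FF D b z * (GG (q + 1) ω / m) - w := rfl
      rw [this, Complex.ofReal_mul ρ C, hρc, Complex.ofReal_mul y R, Complex.ofReal_sub C 1,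
        Complex.ofReal_one]
      field_simp
      ring
    rw [e1]
    refine (norm_add_le _ _).trans ?_
    refine (add_le_add ((norm_add_le _ _).trans (add_le_add norm_add₃_le a3)) a4).trans ?_
    linarith
  refine ⟨y * R, u, ?_, hu.1, hu.2, ?_⟩
  · rw [abs_mul, abs_of_pos hR0]
    have hy2 : |y| ≤ 2 := abs_le.2 hy
    gcongr
  · have h1 : Φ (y, u) = 0 := by
      rcases div_eq_zero_iff.1 h0 with h | h
      · exact h
      · exact absurd h (mul_ne_zero hA0 hRc)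
    exact sub_eq_zero.1 h1

lemma round (m : ℕ) (hm : 0 < m) (z0 : ℂ) (hz0 : ‖z0‖ = 1) (t : ℝ) :
    ∃ z : ℂ, ‖z‖ = 1 ∧ ‖z - z0‖ ≤ 7 / m ∧ z ^ m = exp (((2 * t : ℝ) : ℂ) * I) := by
  have hm' : (0 : ℝ) < m := by exact_mod_cast hm
  obtain ⟨j, hj⟩ := exists_round (m * Complex.arg z0) (2 * t)
  set θ : ℝ := (2 * t + j * (2 * Real.pi)) / m with hθ
  have hmθ : (m : ℝ) * θ = 2 * t + j * (2 * Real.pi) := by rw [hθ]; field_simp
  have hz0e : z0 = Complex.exp ((Complex.arg z0 : ℂ) * Complex.I) := by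
    have := Complex.norm_mul_exp_arg_mul_I z0
    rw [hz0] at this; simpa using this.symm
  refine ⟨Complex.exp ((θ : ℂ) * Complex.I), Complex.norm_exp_ofReal_mul_I θ, ?_, ?_⟩
  · have := exp_close θ (Complex.arg z0)
    rw [← hz0e] at this
    refine this.trans ?_
    rw [le_div_iff₀ hm']
    have e : |θ - Complex.arg z0| * m = |m * θ - m * Complex.arg z0| := by
      rw [← mul_sub, abs_mul, abs_of_pos hm', mul_comm]
    rw [e, hmθ]
    have := Real.pi_lt_d2
    linarith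
  · rw [← Complex.exp_nat_mul]
    have e : (m : ℂ) * ((θ : ℂ) * Complex.I)
        = ((2 * t : ℝ) : ℂ) * Complex.I + (j : ℂ) * (2 * (Real.pi : ℂ) * Complex.I) := by
      have := congrArg (fun x : ℝ => (x : ℂ)) hmθ
      simp only [Complex.ofReal_mul, Complex.ofReal_add, Complex.ofReal_natCast,
        Complex.ofReal_intCast, Complex.ofReal_ofNat] at this
      rw [← mul_assoc, this]; push_cast; ring
    rw [e, Complex.exp_add, Complex.exp_int_mul_two_pi_mul_I, mul_one]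

lemma dense_step (ε c R : ℝ) (D : ℕ) (b : ℕ → ℕ) (hc : 1 ≤ c) (hzero : ∀ n, D ≤ n → b n = 0)
    (hB : 1 ≤ BB D b) (q m : ℕ) (hq : 200 ≤ q) (hDm : D ≤ m) (hm : 0 < m)
    (hR : R = 2 ^ (q + 2) / ((q : ℝ) + 2) / m)
    (hlo : 4 * ε * c ≤ BB D b * R) (hsm : D * c * R ≤ 1 / 200) (w z0 : ℂ) (hz0 : ‖z0‖ = 1)
    (h2 : ‖ff D b z0 - w‖ ≤ ε) (h3 : BB D b ≤ c * ‖FF D b z0‖) :
    ∃ z : ℂ, ‖z‖ = 1 ∧ ‖ff (m * (q + 1 + 1)) (nb (q + 1) m b) z - w‖ ≤ 8 * (BB D b / m) ∧
      BB (m * (q + 1 + 1)) (nb (q + 1) m b)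
        ≤ (4 * c) * ‖FF (m * (q + 1 + 1)) (nb (q + 1) m b) z‖ := by
  obtain ⟨x, u, hx, hu0, hu1, hw⟩ := solve ε c R D b hc hB q m hq hm hR hlo hsm w z0 hz0 h2 h3
  have hm' : (0 : ℝ) < m := by exact_mod_cast hm
  have hρ100 := rho_ge q hq
  set B := BB D b with hBdef
  set ρ : ℝ := 2 ^ (q + 2) / ((q : ℝ) + 2) with hρ
  have hR0 : 0 < R := by rw [hR]; positivity
  have hRm : R * m = ρ := by rw [hR]; field_simp
  have hD0 : (0 : ℝ) ≤ D := by positivity
  have hDR : D * R ≤ 1 / 200 := by nlinarith [mul_nonneg hD0 hR0.le]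
  set z1 : ℂ := z0 * exp ((x : ℂ) * I) with hz1
  have hz1n : ‖z1‖ = 1 := by rw [hz1, norm_mul, hz0, Complex.norm_exp_ofReal_mul_I, one_mul]
  obtain ⟨z, hzn, hzz, hzm⟩ := round m hm z1 hz1n (u / q)
  set ω : ℂ := exp (((2 * (u / q) : ℝ) : ℂ) * I) with hω
  have hωn : ‖ω‖ = 1 := Complex.norm_exp_ofReal_mul_I _
  have eρ : (2 : ℝ) ^ (q + 1 + 1) / (((q + 1 : ℕ) : ℝ) + 1) = ρ := by
    rw [hρ]; push_cast; ring_nf
  have hG : ‖GG (q + 1) ω / m‖ ≤ 2 * R := by
    have := norm_GG_le (q + 1) ω hωn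
    rw [norm_div, Complex.norm_natCast, div_le_iff₀ hm', mul_assoc, hRm]
    rwa [eρ] at this
  have hBm : 0 < B / m := by positivity
  refine ⟨z, hzn, ?_, ?_⟩
  · rw [ff_nb, ff_extend D m b hDm hzero, ← hw]
    have a3 := hh_GG (q + 1) m D hm b hzero z hzn
    rw [hzm, FF_extend D m b hDm hzero, BB_extend D m b hDm hzero, eρ, ← hBdef] at a3
    have a3' : B * D / m * (2 * ρ / m) ≤ 1 / 100 * (B / m) := by
      have : B * D / m * (2 * ρ / m) = 2 * (D * R) * (B / m) := by rw [← hRm]; field_simp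
      rw [this]; gcongr; linarith
    have a1 : ‖ff D b z - ff D b z1‖ ≤ 7 * (B / m) := by
      refine (ff_lip D b z z1 hzn.le hz1n.le).trans ?_
      calc B * ‖z - z1‖ ≤ B * (7 / m) := by gcongr
        _ = _ := by ring
    have a2 : ‖(z * FF D b z - z1 * FF D b z1) * (GG (q + 1) ω / m)‖ ≤ 7 / 100 * (B / m) := by
      have h4 := GG_lip D b z z1 hzn.le hz1n.le
      rw [norm_mul]
      calc ‖z * FF D b z - z1 * FF D b z1‖ * ‖GG (q + 1) ω / m‖
          ≤ (D * B * (7 / m)) * (2 * R) := by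
            gcongr
            exact h4.trans (by gcongr)
        _ = 14 * (D * R) * (B / m) := by ring
        _ ≤ 14 * (1 / 200) * (B / m) := by gcongr
        _ = _ := by ring
    have e : ff D b z + hh (q + 1) m b z - (ff D b z1 + z1 * FF D b z1 * (GG (q + 1) ω / m))
        = (ff D b z - ff D b z1) + (z * FF D b z - z1 * FF D b z1) * (GG (q + 1) ω / m)
          + (hh (q + 1) m b z - z * FF D b z * (GG (q + 1) ω / m)) := by ring
    rw [e]
    refine norm_add₃_le.trans ?_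
    linarith
  · rw [BB_nb, FF_nb, FF_extend D m b hDm hzero, BB_extend D m b hDm hzero, norm_mul, norm_pow,
      hzm, hω, one_add_exp, norm_mul, norm_mul, Complex.norm_exp_ofReal_mul_I, mul_one,
      Complex.norm_real, Real.norm_eq_abs, mul_pow]
    have hn2 : ‖(2 : ℂ)‖ = 2 := by simp
    obtain ⟨hc0, hc1⟩ := cos_pow_ge q hq u hu0 hu1
    rw [hn2, abs_of_nonneg hc0, ← hBdef]
    have hpw : Real.cos (u / q) ^ (q + 2) ≤ Real.cos (u / q) ^ (q + 1) :=
      pow_le_pow_of_le_one hc0 (Real.cos_le_one _) (by omega)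
    have h5 : ‖z - z0‖ ≤ 3 * R := by
      have h6 := norm_add_le (z - z1) (z1 - z0)
      rw [sub_add_sub_cancel] at h6
      have h7 : ‖z1 - z0‖ ≤ 2 * R := (norm_rot_sub z0 hz0 x).trans hx
      have h8 : 7 / (m : ℝ) ≤ R := by rw [div_le_iff₀ hm', hRm]; linarith
      linarith
    have h6 : ‖z * FF D b z - z0 * FF D b z0‖ ≤ D * B * (3 * R) :=
      (GG_lip D b z z0 hzn.le hz0.le).trans (by gcongr)
    have h7 := norm_sub_norm_le (z0 * FF D b z0) (z * FF D b z)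
    rw [norm_sub_rev, norm_mul, norm_mul, hz0, hzn, one_mul, one_mul] at h7
    set S := ‖FF D b z0‖
    set S' := ‖FF D b z‖
    have hS0 : 0 ≤ S := norm_nonneg _
    have hS' : 0 ≤ S' := norm_nonneg _
    have hDBR : D * B * R ≤ S / 200 := by
      calc D * B * R ≤ D * (c * S) * R := by gcongr
        _ = (D * c * R) * S := by ring
        _ ≤ 1 / 200 * S := by gcongr
        _ = S / 200 := by ring
    have h8 : S ≤ 2 * S' := by linarith
    have h9 : B ≤ 4 * c * (S' * Real.cos (u / q) ^ (q + 1)) := by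
      calc B ≤ c * (2 * S') := h3.trans (by gcongr)
        _ = 4 * c * (S' * (1 / 2)) := by ring
        _ ≤ _ := by gcongr; linarith
    calc 2 ^ (q + 1) * B ≤ 2 ^ (q + 1) * (4 * c * (S' * Real.cos (u / q) ^ (q + 1))) := by gcongr
      _ = _ := by ring

end Pool.Agent.Lib.MP_09c31c_an.TH
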